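import Pool.Agent.H22.G0.Fin
import Pool.Agent.H6.G0.Cls
import Pool.Agent.H24.GH.Fur
import Pool.Agent.H24.WN.All
import Pool.Agent.H70.WN.TRW

/-!
# The spectrum of the components of the Furstenberg systems of real multiplicative functions
(MP_34b97f_an)
-/

set_option autoImplicit false

open MeasureTheory ProbabilityTheory Filter Topology

namespace Pool.Agent.H24.CS

open Pool.Agent.H89.MT (I1 X IsMult QuasiGeneric pt lavg)
open Pool.Agent.H24.WT (QGW)

/-- a logarithmically quasi-generic measure is quasi-generic along windows -/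
theorem qgw_of {u : ℕ → I1} {κ : Measure X} (h : QuasiGeneric u κ) : QGW u κ := by
  obtain ⟨hp, N, hN, hF⟩ := h
  refine ⟨hp, fun _ => 1, fun k => max (N k) 3, fun k => ?_, ?_, fun F => ?_⟩
  · refine ⟨le_rfl, (by norm_num : 1 ≤ 3).trans (le_max_right (N k) 3), ?_⟩
    have h3 : (3 : ℝ) ≤ ((max (N k) 3 : ℕ) : ℝ) := by exact_mod_cast le_max_right (N k) 3
    have h1 : 1 ≤ Real.log ((max (N k) 3 : ℕ) : ℝ) := by
      rw [Real.le_log_iff_exp_le (by linarith)]
      exact le_trans (Real.exp_one_lt_d9.le.trans (by norm_num)) h3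
    rw [Nat.cast_one, div_one]
    calc Real.log ((max (N k) 3 : ℕ) : ℝ) ^ (24 / 25 : ℝ) ≤
        Real.log ((max (N k) 3 : ℕ) : ℝ) ^ (1 : ℝ) :=
          Real.rpow_le_rpow_of_exponent_le h1 (by norm_num)
      _ = _ := Real.rpow_one _
  · have h1 : Tendsto (fun k => ((max (N k) 3 : ℕ) : ℝ)) atTop atTop :=
      tendsto_natCast_atTop_atTop.comp
        (tendsto_atTop_mono (fun k => le_max_left (N k) 3) hN)
    refine (Real.tendsto_log_atTop.comp h1).congr fun k => ?_
    simp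
  · refine (hF F).congr' ?_
    filter_upwards [hN.eventually_ge_atTop 3] with k hk
    rw [max_eq_left hk]
    simp [lavg]

/-- the spectrum of the components -/
theorem main (q : ℕ) [NeZero q] (ρ : ℕ → ℝ)
    (hρ : Summable fun p : Nat.Primes => ρ p / ((p : ℕ) : ℝ)) : ∃ c : ℝ, 0 < c ∧
    ∀ u : ℕ → I1, IsMult u → ∀ (κ : Measure X) [IsProbabilityMeasure κ], QuasiGeneric u κ →
      ∃ w : X → ℝ, Measurable w ∧ (∀ x, 0 ≤ w x ∧ w x ≤ 1) ∧
        (∀ᵐ x ∂κ, Pool.Agent.H24.WN.Spec (Pool.Agent.H24.EG.comp κ x) (w x)) ∧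
        ((∃ χ : DirichletCharacter ℂ q, ∀ p : ℕ, p.Prime → ‖((u p : ℝ) : ℂ) + χ p‖ ≤ ρ p) →
          c ≤ ∫ x, w x ∂κ) := by
  obtain ⟨c, K, hc, h⟩ := Pool.Agent.H6.G0.gh0U Pool.Agent.H22.G0.Fin.gh0 q 0 ρ hρ
  refine ⟨c, hc, ?_⟩
  intro u hu κ _ hκ
  have hκ' : QGW u κ := qgw_of hκ
  have hu' : ∀ m n : ℕ, m.Coprime n → (u (m * n) : ℝ) = u m * u n := by
    intro m n hmn
    rcases Nat.eq_zero_or_pos m with hm | hm
    · subst hm
      have : n = 1 := by simpa using hmn
      subst this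
      simp [hu.1]
    · rcases Nat.eq_zero_or_pos n with hn | hn
      · subst hn
        have : m = 1 := by simpa using hmn
        subst this
        simp [hu.1]
      · exact hu.2 m n hm hn hmn
  have hfar : (∃ χ : DirichletCharacter ℂ q, ∀ p : ℕ, p.Prime → ‖((u p : ℝ) : ℂ) + χ p‖ ≤ ρ p) →
      ∃ G : X → ℝ, Measurable G ∧ (∀ x, 0 ≤ G x ∧ G x ≤ 1) ∧ c ≤ ∫ x, G x ∂κ ∧
        ∀ᵐ x ∂κ, Pool.Agent.H24.WN.Far (Pool.Agent.H24.EG.comp κ x) (G x) := by
    rintro ⟨χ, hp⟩
    have hprod : ∀ s : Finset ℕ, (∀ p ∈ s, p.Prime) →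
        ((u (∏ p ∈ s, p) : ℝ) : ℂ) = ∏ p ∈ s, ((u p : ℝ) : ℂ) := by
      intro s
      induction s using Finset.induction_on with
      | empty => intro _; simp [hu.1]
      | insert p s hps ih =>
        intro h
        have h1 : ∀ r ∈ s, r.Prime := fun r hr => h r (Finset.mem_insert_of_mem hr)
        have h2 : p.Prime := h p (Finset.mem_insert_self p s)
        have h3 : 0 < ∏ r ∈ s, r := Finset.prod_pos fun r hr => (h1 r hr).pos
        have h4 : Nat.Coprime p (∏ r ∈ s, r) := Nat.Coprime.prod_right fun r hr =>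
          (Nat.coprime_primes h2 (h1 r hr)).2 fun he => hps (he ▸ hr)
        rw [Finset.prod_insert hps, Finset.prod_insert hps, ← ih h1, hu.2 _ _ h2.pos h3 h4]
        push_cast
        rfl
    have hG : Pool.Agent.H24.GH.GHf c (fun n => ((u n : ℝ) : ℂ)) := by
      intro R
      obtain ⟨H₀, h⟩ := h R
      refine ⟨H₀, K, fun H N hH hN => ?_⟩
      refine h H N hH hN χ 0 (fun n => ((u n : ℝ) : ℂ)) (by simp) (fun n => ?_) (fun n hn => ?_)
        (fun p hpp => ?_)
      · rw [Complex.norm_real, Real.norm_eq_abs]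
        exact abs_le.2 (u n).2
      · have h := hprod n.primeFactors fun p hp => Nat.prime_of_mem_primeFactors hp
        rw [Nat.prod_primeFactors_of_squarefree hn] at h
        exact h
      · simpa using hp p hpp
    exact Pool.Agent.H24.GH.fur_of _ hG u (fun _ _ => rfl) κ hκ
  refine ⟨Pool.Agent.H24.WN.W κ, Pool.Agent.H24.WN.W_meas κ, Pool.Agent.H24.WN.W_mem κ, ?_⟩
  by_cases hs : Summable (fun p : {p : ℕ // p.Prime} => (1 - (u p : ℝ) ^ 2) / (p : ℝ))
  · obtain ⟨h1, h2⟩ := Pool.Agent.H24.WN.white_mult u hu' hs κ hκ'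
    refine ⟨h1, fun hχ => ?_⟩
    obtain ⟨G, hGm, hG, hcG, hFar⟩ := hfar hχ
    exact h2 c G hGm hG hcG hFar
  · refine ⟨Pool.Agent.H24.WN.white_zero (Pool.Agent.H70.WN.pf_TRW u κ hu' hκ' hs), ?_⟩
    rintro ⟨χ, hp⟩
    refine absurd ?_ hs
    have hfs : Summable fun p : {p : ℕ // p.Prime} => if (p : ℕ) ∣ q then (1 : ℝ) else 0 := by
      refine summable_of_ne_finset_zero (s := (q.primeFactors.subtype _)) fun p hp => ?_
      have hpq : ¬ (p : ℕ) ∣ q := by
        intro hd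
        apply hp
        rw [Finset.mem_subtype]
        exact Nat.mem_primeFactors.2 ⟨p.2, hd, NeZero.ne q⟩
      rw [if_neg hpq]
    have hg : Summable fun p : {p : ℕ // p.Prime} =>
        2 * (ρ p / ((p : ℕ) : ℝ)) + if (p : ℕ) ∣ q then (1 : ℝ) else 0 :=
      (hρ.mul_left 2).add hfs
    refine Summable.of_nonneg_of_le (fun p => ?_) (fun p => ?_) hg
    · refine div_nonneg ?_ (Nat.cast_nonneg _)
      have h1 : |(u p : ℝ)| ≤ 1 := abs_le.2 (u p).2
      have h2 := abs_nonneg (u p : ℝ)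
      rw [← sq_abs]
      nlinarith
    · have hp1 : (1 : ℝ) ≤ ((p : ℕ) : ℝ) := by exact_mod_cast p.2.one_lt.le
      have hρ0 : 0 ≤ ρ p := (norm_nonneg _).trans (hp p p.2)
      have h1 : |(u p : ℝ)| ≤ 1 := abs_le.2 (u p).2
      have h2 := abs_nonneg (u p : ℝ)
      by_cases hpq : (p : ℕ) ∣ q
      · rw [if_pos hpq]
        have h3 : (1 - (u p : ℝ) ^ 2) / ((p : ℕ) : ℝ) ≤ 1 := by
          rw [div_le_one (by linarith)]
          nlinarith [sq_nonneg (u p : ℝ)]
        have h4 : 0 ≤ 2 * (ρ p / ((p : ℕ) : ℝ)) := by positivity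
        linarith
      · rw [if_neg hpq, add_zero, ← mul_div_assoc]
        refine div_le_div_of_nonneg_right ?_ (by linarith)
        have hcop : Nat.Coprime p q := (p.2.coprime_iff_not_dvd).2 hpq
        have hu1 : IsUnit ((p : ℕ) : ZMod q) := (ZMod.isUnit_iff_coprime p q).2 hcop
        have h5 : ‖χ p‖ = 1 := by
          obtain ⟨v, hv⟩ := hu1
          rw [← hv]
          exact χ.unit_norm_eq_one v
        have h6 : 1 - |(u p : ℝ)| ≤ ρ p := by
          refine le_trans ?_ (hp p p.2)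
          have h7 := norm_sub_norm_le (χ p) (-((u p : ℝ) : ℂ))
          rw [norm_neg, Complex.norm_real, Real.norm_eq_abs, h5, sub_neg_eq_add,
            add_comm (χ p)] at h7
          exact h7
        rw [← sq_abs]
        nlinarith

end Pool.Agent.H24.CS
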